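import Pool.Agent.Run7.h379.AS.Bodies

/-! # The comparison of the areas -/

namespace Pool.Agent.Run7.h379.AS

open MeasureTheory Measure Module Set
open scoped RealInnerProductSpace ENNReal

variable {m : ℕ}

lemma sg_decide (a : ℝ) : sg (decide (0 ≤ a)) * a = |a| := by
  by_cases h : 0 ≤ a
  · simp [h, abs_of_nonneg h]
  · simp [h, abs_of_neg (not_le.1 h)]

lemma sum_drop (i : Fin (m + 1)) (x : E (m + 1)) : |x i| + ∑ j, |drop i x j| = ∑ l, |x l| := by
  rw [Fin.sum_univ_succAbove (fun l => |x l|) i]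
  rfl

lemma frontier_trunc_subset (s t : ℝ) :
    frontier (trunc m s t) ⊆ (⋃ ε : Fin (m + 1) → Bool, facet ε s (Dtr m s t)) ∪
      ((⋃ i, cfacet i (s - t) t) ∪ ⋃ i, cfacet i (-(s - t)) t) := by
  intro x hx
  obtain ⟨⟨h1, h2⟩, h | ⟨i, hi⟩⟩ := frontier_trunc s t hx
  · left
    refine mem_iUnion.2 ⟨fun j => decide (0 ≤ x j), ?_, ?_⟩
    · have hr : ∀ j, rf (fun j => decide (0 ≤ x ((0 : Fin (m + 1)).succAbove j))) (drop 0 x) j =
          |drop 0 x j| := fun j => sg_decide _
      have hs := sum_drop 0 x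
      refine ⟨fun j => ?_, ?_, ?_⟩
      · rw [hr]
        exact ⟨abs_nonneg _, h2 _⟩
      · rw [Finset.sum_congr rfl fun j _ => hr j]
        have := h2 0
        linarith
      · rw [Finset.sum_congr rfl fun j _ => hr j]
        have := abs_nonneg (x 0)
        linarith
    · rw [inner_sv, Finset.sum_congr rfl fun j _ => sg_decide (x j), h]
  · right
    have hs := sum_drop i x
    have hd : drop i x ∈ Om m t := by
      show ∑ j, |drop i x j| ≤ t
      linarith
    have hin : ⟪EuclideanSpace.single i (1 : ℝ), x⟫ = x i := by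
      rw [EuclideanSpace.inner_single_left]
      simp
    rcases abs_choice (x i) with h | h
    · left
      exact mem_iUnion.2 ⟨i, hd, by rw [hin, ← hi, h]⟩
    · right
      exact mem_iUnion.2 ⟨i, hd, by rw [hin, ← hi, h, neg_neg]⟩

lemma area_upper (L : E (m + 1) ≃ₗ[ℝ] E (m + 1)) (s t : ℝ) :
    μHE[m] (L '' frontier (trunc m s t)) ≤
      (∑ ε, ENNReal.ofReal (wt L ε)) * volume (Dtr m s t) +
      2 * ((∑ i, ENNReal.ofReal ‖cof L (EuclideanSpace.single i (1 : ℝ))‖) * volume (Om m t)) := by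
  refine (measure_mono (image_mono (frontier_trunc_subset s t))).trans ?_
  rw [image_union, image_union, image_iUnion, image_iUnion, image_iUnion]
  refine (measure_union_le _ _).trans (add_le_add ?_ ((measure_union_le _ _).trans ?_))
  · refine (measure_iUnion_fintype_le _ _).trans (le_of_eq ?_)
    rw [Finset.sum_congr rfl fun ε _ => area_facet L ε s (isClosed_Dtr s t).measurableSet,
      Finset.sum_mul]
  · rw [two_mul]
    refine add_le_add ?_ ?_
    · refine (measure_iUnion_fintype_le _ _).trans (le_of_eq ?_)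
      rw [Finset.sum_congr rfl fun i _ => area_cfacet L i (s - t) t, Finset.sum_mul]
    · refine (measure_iUnion_fintype_le _ _).trans (le_of_eq ?_)
      rw [Finset.sum_congr rfl fun i _ => area_cfacet L i (-(s - t)) t, Finset.sum_mul]

lemma facet_signs {ε : Fin (m + 1) → Bool} {x : E (m + 1)} (hx : x ∈ facet ε 1 (Dop m)) :
    ∀ i, 0 < sg (ε i) * x i := by
  obtain ⟨⟨h1, h2⟩, h3⟩ := hx
  rw [inner_sv, Fin.sum_univ_succAbove _ 0] at h3
  have h2' : ∑ j, sg (ε ((0 : Fin (m + 1)).succAbove j)) * x ((0 : Fin (m + 1)).succAbove j) < 1 := h2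
  intro i
  rcases Fin.eq_self_or_eq_succAbove 0 i with rfl | ⟨j, rfl⟩
  · linarith
  · exact h1 j

lemma facet_subset_frontier (ε : Fin (m + 1) → Bool) :
    facet ε 1 (Dop m) ⊆ frontier (cross m 1) := by
  intro x hx
  refine mem_frontier_cross one_pos ?_
  rw [← hx.2, inner_sv]
  refine Finset.sum_congr rfl fun i _ => ?_
  rw [← abs_of_pos (facet_signs hx i), abs_mul, abs_sg, one_mul]

lemma facet_disjoint {ε ε' : Fin (m + 1) → Bool} (h : ε ≠ ε') :
    Disjoint (facet ε 1 (Dop m)) (facet ε' 1 (Dop m)) := by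
  rw [Set.disjoint_left]
  intro x hx hx'
  apply h
  funext i
  have h1 := facet_signs hx i
  have h2 := facet_signs hx' i
  cases h3 : ε i <;> cases h4 : ε' i <;> simp [h3, h4] at h1 h2 ⊢ <;> linarith

lemma area_lower (L : E (m + 1) ≃ₗ[ℝ] E (m + 1)) :
    (∑ ε, ENNReal.ofReal (wt L ε)) * volume (Dop m) ≤ μHE[m] (L '' frontier (cross m 1)) := by
  have hmeas : MeasurableEmbedding L := L.toContinuousLinearEquiv.toHomeomorph.measurableEmbedding
  have h : μHE[m] (⋃ ε : Fin (m + 1) → Bool, L '' facet ε 1 (Dop m)) =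
      (∑ ε, ENNReal.ofReal (wt L ε)) * volume (Dop m) := by
    rw [measure_iUnion, tsum_fintype,
      Finset.sum_congr rfl fun ε _ => area_facet L ε 1 measurableSet_Dop, Finset.sum_mul]
    · intro ε ε' hne
      exact (disjoint_image_iff L.injective).2 (facet_disjoint hne)
    · intro ε
      exact hmeas.measurableSet_image.2 (measurableSet_facet ε 1 measurableSet_Dop)
  rw [← h, ← image_iUnion]
  exact measure_mono (image_mono (iUnion_subset facet_subset_frontier))

lemma frontier_cross_subset (s : ℝ) :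
    frontier (cross m s) ⊆ ⋃ ε : Fin (m + 1) → Bool, facet ε s (Dcl m s) := by
  intro x hx
  have h : ∑ i, |x i| = s :=
    frontier_le_subset_eq (by fun_prop : Continuous fun x : E (m + 1) => ∑ i, |x i|)
      continuous_const hx
  refine mem_iUnion.2 ⟨fun j => decide (0 ≤ x j), ?_, ?_⟩
  · have hr : ∀ j, rf (fun j => decide (0 ≤ x ((0 : Fin (m + 1)).succAbove j))) (drop 0 x) j =
        |drop 0 x j| := fun j => sg_decide _
    have hs := sum_drop 0 x
    refine ⟨fun j => ?_, ?_⟩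
    · rw [hr]
      exact abs_nonneg _
    · rw [Finset.sum_congr rfl fun j _ => hr j]
      have := abs_nonneg (x 0)
      linarith
  · rw [inner_sv, Finset.sum_congr rfl fun j _ => sg_decide (x j), h]

lemma area_cross_lt_top (L : E (m + 1) ≃ₗ[ℝ] E (m + 1)) (hm : 0 < m) :
    μHE[m] (L '' frontier (cross m 1)) < ⊤ := by
  refine (measure_mono (image_mono (frontier_cross_subset 1))).trans_lt ?_
  rw [image_iUnion]
  refine (measure_iUnion_fintype_le _ _).trans_lt ?_
  refine ENNReal.sum_lt_top.2 fun ε _ => ?_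
  rw [area_facet L ε 1 (isClosed_Dcl 1).measurableSet]
  exact ENNReal.mul_lt_top ENNReal.ofReal_lt_top ((volume_Dcl_one hm).trans_lt volume_Dop_lt_top)

theorem area_le {k : ℕ} {s : ℝ} (hs : s ^ (k + 2) = 1 + ((k + 3) / 3) * (1 / 4) ^ (k + 2))
    (hs1 : 1 ≤ s) (L : E (k + 2 + 1) ≃ₗ[ℝ] E (k + 2 + 1)) :
    μHE[k + 2] (L '' frontier (trunc (k + 2) s (1 / 4))) ≤
      μHE[k + 2] (L '' frontier (cross (k + 2) 1)) := by
  refine (area_upper L s (1 / 4)).trans (le_trans ?_ (area_lower L))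
  set t : ℝ := 1 / 4 with ht
  have ht0 : 0 < t := by norm_num [ht]
  have hT := volume_Dtr (m := k + 2) ht0 (by rw [ht]; linarith : 2 * t < s) (by omega)
  have hO := volume_Om (m := k + 2) ht0 (by omega)
  have hb := sign_sum_bound k (fun i : Fin (k + 3) => cof L (EuclideanSpace.single i (1 : ℝ)))
  have hd : volume (Dop (k + 2)) = ENNReal.ofReal (volume (Dop (k + 2))).toReal :=
    (ENNReal.ofReal_toReal volume_Dop_lt_top.ne).symm
  set d := (volume (Dop (k + 2))).toReal with hdd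
  have hd0 : 0 ≤ d := ENNReal.toReal_nonneg
  rw [hd] at hT hO ⊢
  have hXfin : volume (Dtr (k + 2) s t) ≠ ⊤ := by
    refine ne_top_of_le_ne_top ?_ (le_self_add.trans hT)
    exact ENNReal.mul_ne_top ENNReal.ofReal_ne_top ENNReal.ofReal_ne_top
  have hX : volume (Dtr (k + 2) s t) = ENNReal.ofReal (volume (Dtr (k + 2) s t)).toReal :=
    (ENNReal.ofReal_toReal hXfin).symm
  set X := (volume (Dtr (k + 2) s t)).toReal with hXd
  have hX0 : 0 ≤ X := ENNReal.toReal_nonneg
  rw [hX] at hT ⊢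
  have hs0 : 0 ≤ s := by linarith
  have hT2 : X + (k + 3) * (t ^ (k + 2) * d) ≤ s ^ (k + 2) * d := by
    have e1 : ((k + 2 : ℕ) : ℝ≥0∞) + 1 = ENNReal.ofReal (k + 3) := by
      rw [show ((k : ℝ) + 3) = ((k + 2 + 1 : ℕ) : ℝ) by push_cast; ring, ENNReal.ofReal_natCast]
      push_cast
      rfl
    rw [e1, ← ENNReal.ofReal_mul (by positivity), ← ENNReal.ofReal_mul (by positivity),
      ← ENNReal.ofReal_add hX0 (by positivity), ← ENNReal.ofReal_mul (by positivity),
      ENNReal.ofReal_le_ofReal_iff (by positivity)] at hT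
    exact hT
  set P := ∑ ε : Fin (k + 2 + 1) → Bool, wt L ε with hP
  set N := ∑ i : Fin (k + 2 + 1), ‖cof L (EuclideanSpace.single i (1 : ℝ))‖ with hN
  have hP0 : 0 ≤ P := Finset.sum_nonneg fun ε _ => norm_nonneg _
  have hN0 : 0 ≤ N := Finset.sum_nonneg fun i _ => norm_nonneg _
  have hPe : ∑ ε : Fin (k + 2 + 1) → Bool, ENNReal.ofReal (wt L ε) = ENNReal.ofReal P :=
    (ENNReal.ofReal_sum_of_nonneg fun ε _ => norm_nonneg _).symm
  have hNe : ∑ i : Fin (k + 2 + 1), ENNReal.ofReal ‖cof L (EuclideanSpace.single i (1 : ℝ))‖ =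
      ENNReal.ofReal N :=
    (ENNReal.ofReal_sum_of_nonneg fun ε _ => norm_nonneg _).symm
  have hbP : (2 : ℝ) ^ (k + 3) * (3 / (2 * (k + 3))) * N ≤ P := hb
  rw [hPe, hNe]
  have hO2 : 2 * (ENNReal.ofReal N * volume (Om (k + 2) t)) ≤
      ENNReal.ofReal (2 * (N * (t ^ (k + 2) * (2 ^ (k + 2) * d)))) := by
    rw [ENNReal.ofReal_mul (by norm_num), ENNReal.ofReal_mul hN0, ENNReal.ofReal_mul (by positivity),
      ENNReal.ofReal_mul (by positivity), ENNReal.ofReal_pow (by norm_num) (k + 2) (p := 2)]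
    have e2 : ENNReal.ofReal 2 = 2 := by simp
    rw [e2]
    exact mul_le_mul' le_rfl (mul_le_mul' le_rfl hO)
  refine (add_le_add le_rfl hO2).trans ?_
  rw [← ENNReal.ofReal_mul hP0, ← ENNReal.ofReal_mul hP0, ← ENNReal.ofReal_add (by positivity)
    (by positivity)]
  apply ENNReal.ofReal_le_ofReal
  set T := t ^ (k + 2) with hTd
  have hT0 : 0 ≤ T := by positivity
  have h1 : X ≤ (1 - 2 / 3 * (k + 3) * T) * d := by
    rw [hs] at hT2
    nlinarith [hT2]
  have h2 : P * X ≤ P * ((1 - 2 / 3 * (k + 3) * T) * d) := mul_le_mul_of_nonneg_left h1 hP0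
  have h3 : (2 : ℝ) ^ (k + 3) * N ≤ 2 / 3 * (k + 3) * P := by
    have hk : (0 : ℝ) < k + 3 := by positivity
    have : (2 : ℝ) ^ (k + 3) * N = 2 / 3 * (k + 3) * ((2 : ℝ) ^ (k + 3) * (3 / (2 * (k + 3))) * N) := by
      field_simp
    rw [this]
    exact mul_le_mul_of_nonneg_left hbP (by positivity)
  have h4 : (2 : ℝ) ^ (k + 3) * N * (T * d) ≤ 2 / 3 * (k + 3) * P * (T * d) :=
    mul_le_mul_of_nonneg_right h3 (by positivity)
  have h5 : 2 * (N * (T * (2 ^ (k + 2) * d))) = (2 : ℝ) ^ (k + 3) * N * (T * d) := by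
    rw [pow_succ (2 : ℝ) (k + 2)]
    ring
  rw [h5]
  nlinarith [h2, h4]

end Pool.Agent.Run7.h379.AS
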