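import Pool.Agent.Run7.h379.AS.Hlawka

/-! # Volumes of simplices, cross-polytopes and their truncations in `ℝ^m` -/

namespace Pool.Agent.Run7.h379.AS

open MeasureTheory Measure Module Set
open scoped ENNReal Pointwise

variable {m : ℕ}

/-- The open standard simplex. -/
def Dop (m : ℕ) : Set (Fin m → ℝ) := {y | (∀ j, 0 < y j) ∧ ∑ j, y j < 1}

/-- The closed simplex of size `r`. -/
def Dcl (m : ℕ) (r : ℝ) : Set (Fin m → ℝ) := {y | (∀ j, 0 ≤ y j) ∧ ∑ j, y j ≤ r}

/-- The cross-polytope of size `r`. -/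
def Om (m : ℕ) (r : ℝ) : Set (Fin m → ℝ) := {y | ∑ j, |y j| ≤ r}

/-- The truncated simplex. -/
def Dtr (m : ℕ) (s t : ℝ) : Set (Fin m → ℝ) :=
  {y | (∀ j, 0 ≤ y j ∧ y j ≤ s - t) ∧ t ≤ ∑ j, y j ∧ ∑ j, y j ≤ s}

lemma measurableSet_Dop : MeasurableSet (Dop m) := by
  have h1 : IsOpen (Dop m) := by
    have : Dop m = (⋂ j, {y : Fin m → ℝ | 0 < y j}) ∩ {y | ∑ j, y j < 1} := by
      ext y; simp [Dop]
    rw [this]
    refine IsOpen.inter (isOpen_iInter_of_finite fun j => ?_) ?_
    · exact isOpen_lt continuous_const (continuous_apply j)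
    · exact isOpen_lt (by fun_prop) continuous_const
  exact h1.measurableSet

lemma isClosed_Dcl (r : ℝ) : IsClosed (Dcl m r) := by
  have : Dcl m r = (⋂ j, {y : Fin m → ℝ | 0 ≤ y j}) ∩ {y | ∑ j, y j ≤ r} := by
    ext y; simp [Dcl]
  rw [this]
  refine IsClosed.inter (isClosed_iInter fun j => ?_) ?_
  · exact isClosed_le continuous_const (continuous_apply j)
  · exact isClosed_le (by fun_prop) continuous_const

lemma isClosed_Om (r : ℝ) : IsClosed (Om m r) :=
  isClosed_le (by fun_prop) continuous_const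

lemma isClosed_Dtr (s t : ℝ) : IsClosed (Dtr m s t) := by
  have : Dtr m s t = (⋂ j, ({y : Fin m → ℝ | 0 ≤ y j} ∩ {y | y j ≤ s - t})) ∩
      ({y | t ≤ ∑ j, y j} ∩ {y | ∑ j, y j ≤ s}) := by
    ext y; simp [Dtr]
  rw [this]
  refine IsClosed.inter (isClosed_iInter fun j => ?_) ?_
  · exact (isClosed_le continuous_const (continuous_apply j)).inter
      (isClosed_le (continuous_apply j) continuous_const)
  · exact (isClosed_le continuous_const (by fun_prop)).inter (isClosed_le (by fun_prop) continuous_const)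

lemma volume_Dop_lt_top : volume (Dop m) < ⊤ := by
  have h : Dop m ⊆ Metric.closedBall 0 1 := by
    intro y hy
    rw [mem_closedBall_zero_iff, pi_norm_le_iff_of_nonneg zero_le_one]
    intro j
    rw [Real.norm_eq_abs, abs_of_pos (hy.1 j)]
    exact (Finset.single_le_sum (fun k _ => (hy.1 k).le) (Finset.mem_univ j)).trans hy.2.le
  exact (measure_mono h).trans_lt (isCompact_closedBall 0 1).measure_lt_top

lemma volume_hyp (j : Fin m) : volume {y : Fin m → ℝ | y j = 0} = 0 := by
  have := Measure.pi_hyperplane (fun _ : Fin m => (volume : Measure ℝ)) j (0 : ℝ)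
  exact this

lemma volume_sphere (hm : 0 < m) : volume {y : Fin m → ℝ | ∑ j, |y j| = 1} = 0 := by
  have : Nonempty (Fin m) := ⟨⟨0, hm⟩⟩
  have h1 := volume_sum_rpow_lt (Fin m) (le_refl (1 : ℝ)) 1
  have h2 := volume_sum_rpow_le (Fin m) (le_refl (1 : ℝ)) 1
  simp only [Real.rpow_one, div_one] at h1 h2
  have hsub : {y : Fin m → ℝ | ∑ j, |y j| = 1} =
      {y : Fin m → ℝ | ∑ j, |y j| ≤ 1} \ {y : Fin m → ℝ | ∑ j, |y j| < 1} := by
    ext y
    simp only [Set.mem_ofPred_eq, mem_sdiff, not_lt]
    constructor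
    · intro h; exact ⟨h.le, h.ge⟩
    · rintro ⟨h, h'⟩; exact le_antisymm h h'
  have hm2 : MeasurableSet {y : Fin m → ℝ | ∑ j, |y j| < 1} :=
    (isOpen_lt (by fun_prop) continuous_const).measurableSet
  have hss : {y : Fin m → ℝ | ∑ j, |y j| < 1} ⊆ {y : Fin m → ℝ | ∑ j, |y j| ≤ 1} := by
    intro y hy
    exact le_of_lt (show ∑ j, |y j| < 1 from hy)
  have hfin : volume {y : Fin m → ℝ | ∑ j, |y j| < 1} ≠ ⊤ := by
    rw [h1]
    exact ENNReal.mul_ne_top (by simp) (by simp)
  rw [hsub, measure_sdiff hss hm2.nullMeasurableSet hfin, h1, h2, tsub_self]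

lemma volume_Dcl_one (hm : 0 < m) : volume (Dcl m 1) ≤ volume (Dop m) := by
  have hsub : Dcl m 1 ⊆ Dop m ∪ ((⋃ j, {y : Fin m → ℝ | y j = 0}) ∪ {y | ∑ j, |y j| = 1}) := by
    intro y hy
    by_cases h0 : ∃ j, y j = 0
    · obtain ⟨j, hj⟩ := h0
      exact Or.inr (Or.inl (mem_iUnion.2 ⟨j, hj⟩))
    · push Not at h0
      have hpos : ∀ j, 0 < y j := fun j => lt_of_le_of_ne (hy.1 j) (h0 j).symm
      rcases hy.2.lt_or_eq with h | h
      · exact Or.inl ⟨hpos, h⟩
      · refine Or.inr (Or.inr ?_)
        show ∑ j, |y j| = 1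
        rw [← h]
        exact Finset.sum_congr rfl fun j _ => abs_of_pos (hpos j)
  refine (measure_mono hsub).trans ((measure_union_le _ _).trans ?_)
  have hz : volume ((⋃ j, {y : Fin m → ℝ | y j = 0}) ∪ {y | ∑ j, |y j| = 1}) = 0 := by
    rw [measure_union_null_iff, measure_iUnion_null_iff]
    exact ⟨fun j => volume_hyp j, volume_sphere hm⟩
  rw [hz, add_zero]

/-- The reflection of the coordinates. -/
def rf (ε : Fin m → Bool) (y : Fin m → ℝ) : Fin m → ℝ := fun j => sg (ε j) * y j

lemma measurePreserving_sg (b : Bool) : MeasurePreserving (fun x : ℝ => sg b * x) volume volume := by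
  cases b
  · have : (fun x : ℝ => sg false * x) = Neg.neg := by
      funext x; simp
    rw [this]
    exact measurePreserving_neg volume
  · have : (fun x : ℝ => sg true * x) = id := by
      funext x; simp
    rw [this]
    exact MeasurePreserving.id _

lemma measurePreserving_rf (ε : Fin m → Bool) : MeasurePreserving (rf ε) volume volume :=
  volume_preserving_pi fun j => measurePreserving_sg (ε j)

lemma volume_Om_one (hm : 0 < m) : volume (Om m 1) ≤ 2 ^ m * volume (Dop m) := by
  have hsub : Om m 1 ⊆ ⋃ ε : Fin m → Bool, rf ε ⁻¹' (Dcl m 1) := by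
    intro y hy
    rw [mem_iUnion]
    refine ⟨fun j => decide (0 ≤ y j), ?_, ?_⟩
    · intro j
      by_cases h : 0 ≤ y j
      · simp [rf, h]
      · simp [rf, h]; linarith
    · refine le_trans (le_of_eq ?_) hy
      refine Finset.sum_congr rfl fun j _ => ?_
      by_cases h : 0 ≤ y j
      · simp [rf, h, abs_of_nonneg h]
      · simp [rf, h, abs_of_neg (not_le.1 h)]
  refine (measure_mono hsub).trans ((measure_iUnion_fintype_le _ _).trans ?_)
  have : ∀ ε : Fin m → Bool, volume (rf ε ⁻¹' (Dcl m 1)) = volume (Dcl m 1) := fun ε =>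
    (measurePreserving_rf ε).measure_preimage (isClosed_Dcl 1).measurableSet.nullMeasurableSet
  rw [Finset.sum_congr rfl fun ε _ => this ε, Finset.sum_const, Finset.card_univ, Fintype.card_fun,
    Fintype.card_bool, Fintype.card_fin, nsmul_eq_mul]
  push_cast
  exact mul_le_mul' le_rfl (volume_Dcl_one hm)

lemma volume_smul_set (r : ℝ) (s : Set (Fin m → ℝ)) :
    volume (r • s) = ENNReal.ofReal (|r| ^ m) * volume s := by
  rw [Measure.addHaar_smul, finrank_pi, Fintype.card_fin, abs_pow]

lemma Om_eq {r : ℝ} (hr : 0 < r) : Om m r = r • Om m 1 := by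
  ext y
  rw [mem_smul_set_iff_inv_smul_mem₀ hr.ne']
  simp only [Om, Set.mem_ofPred_eq, Pi.smul_apply, smul_eq_mul, abs_mul, ← Finset.mul_sum,
    abs_of_pos (inv_pos.2 hr)]
  rw [inv_mul_le_iff₀ hr, mul_one]

lemma volume_Om {r : ℝ} (hr : 0 < r) (hm : 0 < m) :
    volume (Om m r) ≤ ENNReal.ofReal (r ^ m) * (2 ^ m * volume (Dop m)) := by
  rw [Om_eq hr, volume_smul_set, abs_of_pos hr]
  exact mul_le_mul' le_rfl (volume_Om_one hm)

lemma Dcl_eq {r : ℝ} (hr : 0 < r) : Dcl m r = r • Dcl m 1 := by
  ext y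
  rw [mem_smul_set_iff_inv_smul_mem₀ hr.ne']
  simp only [Dcl, Set.mem_ofPred_eq, Pi.smul_apply, smul_eq_mul, ← Finset.mul_sum]
  rw [inv_mul_le_iff₀ hr, mul_one]
  have : ∀ j, (0 ≤ r⁻¹ * y j ↔ 0 ≤ y j) := fun j => by
    rw [mul_nonneg_iff_of_pos_left (inv_pos.2 hr)]
  simp [this]

lemma volume_Dcl {r : ℝ} (hr : 0 < r) (hm : 0 < m) :
    volume (Dcl m r) ≤ ENNReal.ofReal (r ^ m) * volume (Dop m) := by
  rw [Dcl_eq hr, volume_smul_set, abs_of_pos hr]
  exact mul_le_mul' le_rfl (volume_Dcl_one hm)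

/-- The corners cut off. -/
def corner (m : ℕ) (s t : ℝ) : Option (Fin m) → Set (Fin m → ℝ)
  | none => t • Dop m
  | some j => (fun y => y + (Pi.single j (s - t) : Fin m → ℝ)) '' (t • Dop m)

lemma volume_corner {s t : ℝ} (ht : 0 < t) (o : Option (Fin m)) :
    volume (corner m s t o) = ENNReal.ofReal (t ^ m) * volume (Dop m) := by
  cases o with
  | none => rw [corner, volume_smul_set, abs_of_pos ht]
  | some j => rw [corner, image_add_right, measure_preimage_add_right, volume_smul_set, abs_of_pos ht]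

lemma mem_smul_Dop {t : ℝ} (ht : 0 < t) (y : Fin m → ℝ) :
    y ∈ t • Dop m ↔ (∀ j, 0 < y j) ∧ ∑ j, y j < t := by
  rw [mem_smul_set_iff_inv_smul_mem₀ ht.ne']
  simp only [Dop, Set.mem_ofPred_eq, Pi.smul_apply, smul_eq_mul, ← Finset.mul_sum]
  rw [inv_mul_lt_iff₀ ht, mul_one]
  have : ∀ j, (0 < t⁻¹ * y j ↔ 0 < y j) := fun j => by
    rw [mul_pos_iff_of_pos_left (inv_pos.2 ht)]
  simp [this]

lemma measurableSet_corner {s t : ℝ} (o : Option (Fin m)) :
    MeasurableSet (corner m s t o) := by
  have h : MeasurableSet (t • Dop m) := measurableSet_Dop.const_smul₀ t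
  cases o with
  | none => exact h
  | some j =>
    rw [corner, image_add_right]
    exact h.preimage (measurable_add_const _)

lemma mem_corner_none {s t : ℝ} (ht : 0 < t) {y : Fin m → ℝ} (hy : y ∈ corner m s t none) :
    (∀ j, 0 < y j) ∧ ∑ j, y j < t := (mem_smul_Dop ht y).1 hy

lemma mem_corner_some {s t : ℝ} (ht : 0 < t) {j : Fin m} {y : Fin m → ℝ}
    (hy : y ∈ corner m s t (some j)) :
    (∀ k, k ≠ j → 0 < y k) ∧ s - t < y j ∧ ∑ k, y k < s := by
  obtain ⟨z, hz, rfl⟩ := hy
  obtain ⟨h1, h2⟩ := (mem_smul_Dop ht z).1 hz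
  refine ⟨fun k hk => ?_, ?_, ?_⟩
  · simp [hk, h1 k]
  · simp [h1 j]
  · simp only [Pi.add_apply, Finset.sum_add_distrib, Finset.sum_pi_single', Finset.mem_univ, if_true]
    linarith

/-- The truncated simplex and the corners fill the simplex. -/
lemma volume_Dtr {s t : ℝ} (ht : 0 < t) (hts : 2 * t < s) (hm : 0 < m) :
    volume (Dtr m s t) + (m + 1) * (ENNReal.ofReal (t ^ m) * volume (Dop m)) ≤
      ENNReal.ofReal (s ^ m) * volume (Dop m) := by
  have hs : 0 < s := by linarith
  have hU : volume (⋃ o, corner m s t o) =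
      (m + 1) * (ENNReal.ofReal (t ^ m) * volume (Dop m)) := by
    rw [measure_iUnion, tsum_fintype, Finset.sum_congr rfl fun o _ => volume_corner ht o,
      Finset.sum_const, Finset.card_univ, Fintype.card_option, Fintype.card_fin, nsmul_eq_mul]
    · push_cast; rfl
    · intro o o' hoo
      rw [Function.onFun, Set.disjoint_left]
      intro y hy hy'
      cases o with
      | none =>
        cases o' with
        | none => exact hoo rfl
        | some j =>
          obtain ⟨a, b⟩ := mem_corner_none ht hy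
          obtain ⟨a', b', c'⟩ := mem_corner_some ht hy'
          have := Finset.single_le_sum (f := y) (fun k _ => (a k).le) (Finset.mem_univ j)
          linarith
      | some j =>
        cases o' with
        | none =>
          obtain ⟨a, b⟩ := mem_corner_none ht hy'
          obtain ⟨a', b', c'⟩ := mem_corner_some ht hy
          have := Finset.single_le_sum (f := y) (fun k _ => (a k).le) (Finset.mem_univ j)
          linarith
        | some k =>
          have hjk : j ≠ k := fun h => hoo (by rw [h])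
          obtain ⟨a, b, c⟩ := mem_corner_some ht hy
          obtain ⟨a', b', c'⟩ := mem_corner_some ht hy'
          have hnn : ∀ l, 0 ≤ y l := fun l => by
            by_cases hl : l = j
            · rw [hl]; linarith
            · exact (a l hl).le
          have h2 : y j + y k ≤ ∑ l, y l := by
            rw [← Finset.sum_pair (f := y) hjk]
            exact Finset.sum_le_sum_of_subset_of_nonneg (Finset.subset_univ _) fun l _ _ => hnn l
          linarith
    · exact fun o => measurableSet_corner o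
  have hdis : Disjoint (Dtr m s t) (⋃ o, corner m s t o) := by
    rw [Set.disjoint_left]
    intro y hy hy'
    obtain ⟨o, ho⟩ := mem_iUnion.1 hy'
    cases o with
    | none =>
      have := (mem_corner_none ht ho).2
      linarith [hy.2.1]
    | some j =>
      have := (mem_corner_some ht ho).2.1
      linarith [(hy.1 j).2]
  have hsub : Dtr m s t ∪ (⋃ o, corner m s t o) ⊆ Dcl m s := by
    rintro y (hy | hy)
    · exact ⟨fun j => (hy.1 j).1, hy.2.2⟩
    · obtain ⟨o, ho⟩ := mem_iUnion.1 hy
      cases o with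
      | none =>
        obtain ⟨a, b⟩ := mem_corner_none ht ho
        exact ⟨fun j => (a j).le, by linarith⟩
      | some j =>
        obtain ⟨a, b, c⟩ := mem_corner_some ht ho
        refine ⟨fun l => ?_, c.le⟩
        by_cases hl : l = j
        · rw [hl]; linarith
        · exact (a l hl).le
  rw [← hU, ← measure_union hdis (MeasurableSet.iUnion fun o => measurableSet_corner o)]
  exact (measure_mono hsub).trans (volume_Dcl hs hm)

end Pool.Agent.Run7.h379.AS
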