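import Pool.Agent.Run7.h379.AS.Graph
import Pool.Agent.Run7.h379.AS.Vol

/-! # The cross-polytope and its truncation: areas of the linear images -/

namespace Pool.Agent.Run7.h379.AS

open MeasureTheory Measure Module Set
open scoped RealInnerProductSpace ENNReal

variable {m : ℕ}

/-- The vector of signs. -/
noncomputable def sv (ε : Fin (m + 1) → Bool) : E (m + 1) :=
  ∑ l, sg (ε l) • EuclideanSpace.single l (1 : ℝ)

lemma sv_apply (ε : Fin (m + 1) → Bool) (i : Fin (m + 1)) : sv ε i = sg (ε i) := by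
  simp [sv, Pi.single_apply]

lemma inner_sv (ε : Fin (m + 1) → Bool) (x : E (m + 1)) : ⟪sv ε, x⟫ = ∑ i, sg (ε i) * x i := by
  rw [PiLp.inner_apply]
  simp [sv_apply, mul_comm]

/-- The part over `D` of the hyperplane of sign `ε`. -/
def facet (ε : Fin (m + 1) → Bool) (c : ℝ) (D : Set (Fin m → ℝ)) : Set (E (m + 1)) :=
  {x | drop 0 x ∈ rf (fun j => ε ((0 : Fin (m + 1)).succAbove j)) ⁻¹' D ∧ ⟪sv ε, x⟫ = c}

/-- The norm of the image of the vector of signs under the cofactor map. -/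
noncomputable def wt (L : E (m + 1) ≃ₗ[ℝ] E (m + 1)) (ε : Fin (m + 1) → Bool) : ℝ :=
  ‖∑ l, sg (ε l) • cof L (EuclideanSpace.single l (1 : ℝ))‖

lemma norm_cof_sv (L : E (m + 1) ≃ₗ[ℝ] E (m + 1)) (ε : Fin (m + 1) → Bool) :
    ‖cof L (sv ε)‖ = wt L ε := by
  rw [wt, sv, _root_.map_sum]
  simp

lemma area_facet (L : E (m + 1) ≃ₗ[ℝ] E (m + 1)) (ε : Fin (m + 1) → Bool) (c : ℝ)
    {D : Set (Fin m → ℝ)} (hD : MeasurableSet D) :
    μHE[m] (L '' facet ε c D) = ENNReal.ofReal (wt L ε) * volume D := by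
  have h0 : sv ε 0 ≠ 0 := by
    rw [sv_apply, ← abs_pos, abs_sg]
    exact one_pos
  have hmp := measurePreserving_rf (fun j => ε ((0 : Fin (m + 1)).succAbove j))
  rw [facet, area_graph L 0 (sv ε) c h0 (hD.preimage hmp.measurable),
    hmp.measure_preimage hD.nullMeasurableSet, norm_cof_sv, sv_apply, abs_sg, inv_one, mul_one]

lemma measurableSet_facet (ε : Fin (m + 1) → Bool) (c : ℝ) {D : Set (Fin m → ℝ)}
    (hD : MeasurableSet D) : MeasurableSet (facet ε c D) := by
  have hmp := measurePreserving_rf (fun j => ε ((0 : Fin (m + 1)).succAbove j))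
  exact ((hD.preimage hmp.measurable).preimage (continuous_drop 0).measurable).inter
    ((measurableSet_singleton c).preimage
      (by fun_prop : Continuous fun x : E (m + 1) => ⟪sv ε, x⟫).measurable)

/-- The facets cut by the truncation. -/
def cfacet (i : Fin (m + 1)) (c t : ℝ) : Set (E (m + 1)) :=
  {x | drop i x ∈ Om m t ∧ ⟪EuclideanSpace.single i (1 : ℝ), x⟫ = c}

lemma area_cfacet (L : E (m + 1) ≃ₗ[ℝ] E (m + 1)) (i : Fin (m + 1)) (c t : ℝ) :
    μHE[m] (L '' cfacet i c t) =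
      ENNReal.ofReal ‖cof L (EuclideanSpace.single i (1 : ℝ))‖ * volume (Om m t) := by
  have h0 : (EuclideanSpace.single i (1 : ℝ) : E (m + 1)) i = 1 := by simp
  rw [cfacet, area_graph L i _ c (by rw [h0]; exact one_ne_zero) (isClosed_Om t).measurableSet, h0,
    abs_one, inv_one, mul_one]

/-- The cross-polytope. -/
def cross (m : ℕ) (s : ℝ) : Set (E (m + 1)) := {x | ∑ i, |x i| ≤ s}

/-- The truncated cross-polytope. -/
def trunc (m : ℕ) (s t : ℝ) : Set (E (m + 1)) := {x | ∑ i, |x i| ≤ s ∧ ∀ i, |x i| ≤ s - t}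

lemma isClosed_cross (s : ℝ) : IsClosed (cross m s) :=
  isClosed_le (by fun_prop) continuous_const

lemma isClosed_trunc (s t : ℝ) : IsClosed (trunc m s t) := by
  have : trunc m s t = cross m s ∩ ⋂ i, {x : E (m + 1) | |x i| ≤ s - t} := by
    ext x; simp [trunc, cross]
  rw [this]
  exact (isClosed_cross s).inter
    (isClosed_iInter fun i => isClosed_le (by fun_prop) continuous_const)

lemma norm_le_sum (x : E (m + 1)) : ‖x‖ ≤ ∑ i, |x i| := by
  have h : x = ∑ i, x i • EuclideanSpace.single i (1 : ℝ) := by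
    ext j
    simp [Pi.single_apply]
  calc ‖x‖ = ‖∑ i, x i • (EuclideanSpace.single i (1 : ℝ) : E (m + 1))‖ := by rw [← h]
    _ ≤ ∑ i, ‖x i • (EuclideanSpace.single i (1 : ℝ) : E (m + 1))‖ := norm_sum_le _ _
    _ = ∑ i, |x i| := by simp [norm_smul]

lemma isCompact_cross (s : ℝ) : IsCompact (cross m s) := by
  refine Metric.isCompact_of_isClosed_isBounded (isClosed_cross s) ?_
  refine (Metric.isBounded_closedBall (x := (0 : E (m + 1))) (r := s)).subset fun x hx => ?_
  rw [mem_closedBall_zero_iff]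
  exact (norm_le_sum x).trans hx

lemma isCompact_trunc (s t : ℝ) : IsCompact (trunc m s t) :=
  (isCompact_cross s).of_isClosed_subset (isClosed_trunc s t) fun _ hx => hx.1

lemma convex_cross (s : ℝ) : Convex ℝ (cross m s) := by
  intro x hx y hy a b ha hb hab
  show ∑ i, |(a • x + b • y) i| ≤ s
  have h1 : ∑ i, |x i| ≤ s := hx
  have h2 : ∑ i, |y i| ≤ s := hy
  calc ∑ i, |(a • x + b • y) i| ≤ ∑ i, (a * |x i| + b * |y i|) := by
        refine Finset.sum_le_sum fun i _ => ?_
        simp only [PiLp.add_apply, PiLp.smul_apply, smul_eq_mul]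
        refine (abs_add_le _ _).trans ?_
        rw [abs_mul, abs_mul, abs_of_nonneg ha, abs_of_nonneg hb]
    _ = a * ∑ i, |x i| + b * ∑ i, |y i| := by
        rw [Finset.sum_add_distrib, Finset.mul_sum, Finset.mul_sum]
    _ ≤ a * s + b * s := by
        exact add_le_add (mul_le_mul_of_nonneg_left h1 ha) (mul_le_mul_of_nonneg_left h2 hb)
    _ = s := by rw [← add_mul, hab, one_mul]

lemma convex_trunc (s t : ℝ) : Convex ℝ (trunc m s t) := by
  intro x hx y hy a b ha hb hab
  refine ⟨convex_cross s hx.1 hy.1 ha hb hab, fun i => ?_⟩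
  simp only [PiLp.add_apply, PiLp.smul_apply, smul_eq_mul]
  calc |a * x i + b * y i| ≤ |a * x i| + |b * y i| := abs_add_le _ _
    _ = a * |x i| + b * |y i| := by rw [abs_mul, abs_mul, abs_of_nonneg ha, abs_of_nonneg hb]
    _ ≤ a * (s - t) + b * (s - t) :=
        add_le_add (mul_le_mul_of_nonneg_left (hx.2 i) ha) (mul_le_mul_of_nonneg_left (hy.2 i) hb)
    _ = s - t := by rw [← add_mul, hab, one_mul]

lemma neg_cross (s : ℝ) {x : E (m + 1)} (hx : x ∈ cross m s) : -x ∈ cross m s := by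
  have h : ∑ i, |x i| ≤ s := hx
  show ∑ i, |(-x) i| ≤ s
  simpa using h

lemma neg_trunc (s t : ℝ) {x : E (m + 1)} (hx : x ∈ trunc m s t) : -x ∈ trunc m s t :=
  ⟨neg_cross s hx.1, fun i => by simpa using hx.2 i⟩

lemma isOpen_inner (s t : ℝ) : IsOpen {x : E (m + 1) | ∑ i, |x i| < s ∧ ∀ i, |x i| < s - t} := by
  have : {x : E (m + 1) | ∑ i, |x i| < s ∧ ∀ i, |x i| < s - t} =
      {x : E (m + 1) | ∑ i, |x i| < s} ∩ ⋂ i, {x : E (m + 1) | |x i| < s - t} := by
    ext x; simp
  rw [this]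
  exact (isOpen_lt (by fun_prop) continuous_const).inter
    (isOpen_iInter_of_finite fun i => isOpen_lt (by fun_prop) continuous_const)

lemma interior_trunc {s t : ℝ} (ht : 0 < t) (hts : t < s) : (interior (trunc m s t)).Nonempty := by
  refine ⟨0, mem_interior.2 ⟨_, fun x hx => ⟨hx.1.le, fun i => (hx.2 i).le⟩, isOpen_inner s t, ?_⟩⟩
  constructor
  · simp; linarith
  · intro i; simp; linarith

lemma interior_cross {s : ℝ} (hs : 0 < s) : (interior (cross m s)).Nonempty := by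
  refine ⟨0, mem_interior.2 ⟨{x | ∑ i, |x i| < s}, fun x hx => ?_,
    isOpen_lt (by fun_prop) continuous_const, ?_⟩⟩
  · have h : ∑ i, |x i| < s := hx
    exact h.le
  · simpa using hs

lemma frontier_trunc (s t : ℝ) {x : E (m + 1)} (hx : x ∈ frontier (trunc m s t)) :
    x ∈ trunc m s t ∧ (∑ i, |x i| = s ∨ ∃ i, |x i| = s - t) := by
  have h1 : x ∈ trunc m s t := (isClosed_trunc s t).frontier_subset hx
  refine ⟨h1, ?_⟩
  by_contra hcon
  push Not at hcon
  apply hx.2
  refine mem_interior.2 ⟨_, fun x hx => ⟨hx.1.le, fun i => (hx.2 i).le⟩, isOpen_inner s t, ?_⟩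
  exact ⟨lt_of_le_of_ne h1.1 hcon.1, fun i => lt_of_le_of_ne (h1.2 i) (hcon.2 i)⟩

lemma mem_frontier_cross {s : ℝ} (hs : 0 < s) {x : E (m + 1)} (hx : ∑ i, |x i| = s) :
    x ∈ frontier (cross m s) := by
  refine ⟨subset_closure (le_of_eq hx), fun hint => ?_⟩
  have hc : Filter.Tendsto (fun r : ℝ => r • x) (nhdsWithin 1 (Ioi 1)) (nhds x) := by
    have : Continuous fun r : ℝ => r • x := by fun_prop
    have h2 := this.tendsto 1
    rw [one_smul] at h2
    exact h2.mono_left nhdsWithin_le_nhds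
  have h3 := hc.eventually (mem_interior_iff_mem_nhds.1 hint)
  obtain ⟨r, hr, hr1⟩ := (h3.and self_mem_nhdsWithin).exists
  have h4 : ∑ i, |(r • x) i| ≤ s := hr
  have hr1' : (1 : ℝ) < r := hr1
  simp only [PiLp.smul_apply, smul_eq_mul, abs_mul, ← Finset.mul_sum, hx,
    abs_of_pos (zero_lt_one.trans hr1')] at h4
  nlinarith

end Pool.Agent.Run7.h379.AS
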