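import Pool.Agent.Run7.h379.AS.Prism

/-! # Areas of linear images of sets in a hyperplane which are graphs over a coordinate hyperplane -/

namespace Pool.Agent.Run7.h379.AS

open MeasureTheory Measure Module Set
open scoped RealInnerProductSpace ENNReal

/-- The coordinates different from the `i`-th one. -/
def drop {m : ℕ} (i : Fin (m + 1)) (x : E (m + 1)) : Fin m → ℝ := fun j => x (i.succAbove j)

lemma continuous_drop {m : ℕ} (i : Fin (m + 1)) : Continuous (drop i) := by
  unfold drop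
  fun_prop

lemma volume_graph {m : ℕ} (i : Fin (m + 1)) {D : Set (Fin m → ℝ)} (hD : MeasurableSet D)
    {g : (Fin m → ℝ) → ℝ} (hg : Measurable g) :
    volume {x : E (m + 1) | drop i x ∈ D ∧ x i - g (drop i x) ∈ Ico (0 : ℝ) 1} = volume D := by
  have h1 := (PiLp.volume_preserving_ofLp (Fin (m + 1)))
  have h2 := volume_preserving_piFinSuccAbove (fun _ : Fin (m + 1) => ℝ) i
  have h3 := h2.comp h1
  set S : Set (ℝ × (Fin m → ℝ)) := {p | p.2 ∈ D ∧ p.1 - g p.2 ∈ Ico (0 : ℝ) 1} with hS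
  have hSm : MeasurableSet S := by
    apply MeasurableSet.inter
    · exact hD.preimage measurable_snd
    · exact measurableSet_Ico.preimage (measurable_fst.sub (hg.comp measurable_snd))
  have heq : {x : E (m + 1) | drop i x ∈ D ∧ x i - g (drop i x) ∈ Ico (0 : ℝ) 1} =
      ((MeasurableEquiv.piFinSuccAbove (fun _ : Fin (m + 1) => ℝ) i) ∘ WithLp.ofLp) ⁻¹' S := by
    ext x
    rfl
  rw [heq, h3.measure_preimage hSm.nullMeasurableSet, Measure.volume_eq_prod,
    Measure.prod_apply_symm hSm]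
  have : ∀ y : Fin m → ℝ, volume ((fun t : ℝ => (t, y)) ⁻¹' S) = D.indicator 1 y := by
    intro y
    by_cases hy : y ∈ D
    · rw [indicator_of_mem hy]
      have : (fun t : ℝ => (t, y)) ⁻¹' S = (fun t => t + (-g y)) ⁻¹' Ico 0 1 := by
        ext t
        simp [hS, hy, sub_eq_add_neg]
      rw [this, measure_preimage_add_right, Real.volume_Ico]
      simp
    · rw [indicator_of_notMem hy]
      have : (fun t : ℝ => (t, y)) ⁻¹' S = ∅ := by
        ext t
        simp [hS, hy]
      rw [this, measure_empty]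
  rw [lintegral_congr this, lintegral_indicator hD]
  simp

/-- The cofactor map: `|det A|` times the inverse of the adjoint. -/
noncomputable def cof {n : ℕ} (A : E n ≃ₗ[ℝ] E n) : E n →ₗ[ℝ] E n :=
  |LinearMap.det (A : E n →ₗ[ℝ] E n)| • LinearMap.adjoint (A.symm : E n →ₗ[ℝ] E n)

lemma norm_cof {n : ℕ} (A : E n ≃ₗ[ℝ] E n) (v : E n) :
    ‖cof A v‖ = |LinearMap.det (A : E n →ₗ[ℝ] E n)| *
      ‖LinearMap.adjoint (A.symm : E n →ₗ[ℝ] E n) v‖ := by
  rw [cof, LinearMap.smul_apply, norm_smul, Real.norm_eq_abs, abs_abs]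

lemma inner_adj {n : ℕ} (A : E n ≃ₗ[ℝ] E n) (v x : E n) :
    ⟪LinearMap.adjoint (A.symm : E n →ₗ[ℝ] E n) v, A x⟫ = ⟪v, x⟫ := by
  rw [LinearMap.adjoint_inner_left]
  simp

lemma inner_drop {m : ℕ} (i : Fin (m + 1)) (v x : E (m + 1)) :
    ⟪v, x⟫ = v i * x i + ∑ j, v (i.succAbove j) * drop i x j := by
  rw [PiLp.inner_apply, Fin.sum_univ_succAbove _ i]
  simp [drop, mul_comm]

theorem area_graph {m : ℕ} (A : E (m + 1) ≃ₗ[ℝ] E (m + 1)) (i : Fin (m + 1)) (v : E (m + 1))
    (c : ℝ) (hv : v i ≠ 0) {D : Set (Fin m → ℝ)} (hD : MeasurableSet D) :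
    μHE[m] (A '' {x | drop i x ∈ D ∧ ⟪v, x⟫ = c}) =
      ENNReal.ofReal (‖cof A v‖ * |v i|⁻¹) * volume D := by
  set w : E (m + 1) := EuclideanSpace.single i 1 with hw
  have hvw : ⟪v, w⟫ = v i := by
    rw [hw, EuclideanSpace.inner_single_right]
    simp
  set P : Set (E (m + 1)) := {x | drop i x ∈ D ∧ ⟪v, x⟫ = c} with hP
  have hPm : MeasurableSet P :=
    (hD.preimage (continuous_drop i).measurable).inter
      ((measurableSet_singleton c).preimage (by fun_prop : Continuous fun x : E (m + 1) => ⟪v, x⟫).measurable)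
  have key := prism_area A v w (LinearMap.adjoint (A.symm : E (m + 1) →ₗ[ℝ] E (m + 1)) v) c
    (by rw [hvw]; exact hv) (inner_adj A v) hPm (fun x hx => hx.2)
  rw [Nat.add_sub_cancel] at key
  rw [key, hvw, norm_cof]
  congr 1
  have hg : Measurable fun y : Fin m → ℝ => (c - ∑ j, v (i.succAbove j) * y j) / v i := by
    fun_prop
  rw [← volume_graph i hD hg]
  congr 1
  ext x
  have h1 : ∀ r : ℝ, drop i (x - r • w) = drop i x := by
    intro r
    funext j
    simp [drop, hw, Fin.succAbove_ne]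
  have h2 : (⟪v, x⟫ - c) / v i =
      x i - (c - ∑ j, v (i.succAbove j) * drop i x j) / v i := by
    rw [inner_drop i v x]
    field_simp
    ring
  simp only [prism, Set.mem_ofPred_eq, hvw, hP, h1, inner_sub_right, inner_smul_right]
  rw [h2]
  constructor
  · rintro ⟨a, b, -⟩
    exact ⟨b, a⟩
  · rintro ⟨a, b⟩
    refine ⟨b, a, ?_⟩
    rw [← h2]
    field_simp
    ring

end Pool.Agent.Run7.h379.AS
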