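import Mathlib

/-! # Hlawka's inequality and sums over signs -/

namespace Pool.Agent.Run7.h379.AS

open scoped RealInnerProductSpace

variable {F : Type*} [NormedAddCommGroup F] [InnerProductSpace ℝ F]

/-- Hlawka's inequality. -/
lemma hlawka (x y z : F) :
    ‖x + y‖ + ‖y + z‖ + ‖z + x‖ ≤ ‖x‖ + ‖y‖ + ‖z‖ + ‖x + y + z‖ := by
  have h1 := norm_add_le x y
  have h2 := norm_add_le y z
  have h3 := norm_add_le z x
  have h4 : ‖x + y + z‖ ≤ ‖x + y‖ + ‖z‖ := norm_add_le _ _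
  have h5 : ‖x + y + z‖ ≤ ‖y + z‖ + ‖x‖ := by
    have := norm_add_le (y + z) x
    rwa [show y + z + x = x + y + z by abel] at this
  have h6 : ‖x + y + z‖ ≤ ‖z + x‖ + ‖y‖ := by
    have := norm_add_le (z + x) y
    rwa [show z + x + y = x + y + z by abel] at this
  have h7 : ‖x + y‖ ≤ ‖x + y + z‖ + ‖z‖ := by
    have := norm_sub_le (x + y + z) z
    rwa [show x + y + z - z = x + y by abel] at this
  have h8 : ‖y + z‖ ≤ ‖x + y + z‖ + ‖x‖ := by
    have := norm_sub_le (x + y + z) x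
    rwa [show x + y + z - x = y + z by abel] at this
  have h9 : ‖z + x‖ ≤ ‖x + y + z‖ + ‖y‖ := by
    have := norm_sub_le (x + y + z) y
    rwa [show x + y + z - y = z + x by abel] at this
  have e1 : ‖x + y‖ ^ 2 = ‖x‖ ^ 2 + 2 * ⟪x, y⟫ + ‖y‖ ^ 2 := norm_add_sq_real x y
  have e2 : ‖y + z‖ ^ 2 = ‖y‖ ^ 2 + 2 * ⟪y, z⟫ + ‖z‖ ^ 2 := norm_add_sq_real y z
  have e3 : ‖z + x‖ ^ 2 = ‖z‖ ^ 2 + 2 * ⟪z, x⟫ + ‖x‖ ^ 2 := norm_add_sq_real z x
  have e4 : ‖x + y + z‖ ^ 2 = ‖x + y‖ ^ 2 + 2 * ⟪x + y, z⟫ + ‖z‖ ^ 2 := norm_add_sq_real (x + y) z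
  rw [inner_add_left, real_inner_comm z x] at e4
  have e5 : ‖x‖ ^ 2 + ‖y‖ ^ 2 + ‖z‖ ^ 2 + ‖x + y + z‖ ^ 2 =
      ‖x + y‖ ^ 2 + ‖y + z‖ ^ 2 + ‖z + x‖ ^ 2 := by linarith
  set a := ‖x‖
  set b := ‖y‖
  set c := ‖z‖
  set d := ‖x + y + z‖
  set p := ‖x + y‖
  set q := ‖y + z‖
  set r := ‖z + x‖
  have ha : 0 ≤ a := norm_nonneg _
  have hb : 0 ≤ b := norm_nonneg _
  have hc : 0 ≤ c := norm_nonneg _
  have hd : 0 ≤ d := norm_nonneg _
  rcases (add_nonneg (add_nonneg (add_nonneg ha hb) hc) hd).eq_or_lt with h0 | h0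
  · nlinarith [norm_nonneg (x + y), norm_nonneg (y + z), norm_nonneg (z + x)]
  · by_contra hcon
    push Not at hcon
    have hid : (a + b + c + d - p - q - r) * (a + b + c + d) =
        (a + b - p) * (c - p + d) + (b + c - q) * (a - q + d) + (c + a - r) * (b - r + d) := by
      nlinarith [e5]
    have n1 : 0 ≤ (a + b - p) * (c - p + d) := mul_nonneg (by linarith) (by linarith)
    have n2 : 0 ≤ (b + c - q) * (a - q + d) := mul_nonneg (by linarith) (by linarith)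
    have n3 : 0 ≤ (c + a - r) * (b - r + d) := mul_nonneg (by linarith) (by linarith)
    have : (a + b + c + d - p - q - r) * (a + b + c + d) < 0 :=
      mul_neg_of_neg_of_pos (by linarith) h0
    linarith

/-- Four signed sums of three vectors. -/
lemma four_signs (x y z : F) :
    2 * (‖x‖ + ‖y‖ + ‖z‖) ≤
      ‖x + y + z‖ + ‖-x + y + z‖ + ‖x - y + z‖ + ‖x + y - z‖ := by
  have h := hlawka (-x + y + z) (x - y + z) (x + y - z)
  have e1 : -x + y + z + (x - y + z) = (2 : ℝ) • z := by rw [two_smul]; abel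
  have e2 : x - y + z + (x + y - z) = (2 : ℝ) • x := by rw [two_smul]; abel
  have e3 : x + y - z + (-x + y + z) = (2 : ℝ) • y := by rw [two_smul]; abel
  have e4 : -x + y + z + (x - y + z) + (x + y - z) = x + y + z := by abel
  rw [e4, e1, e2, e3, norm_smul, norm_smul, norm_smul] at h
  norm_num at h
  linarith

lemma two_norm_le (p r : F) : 2 * ‖p‖ ≤ ‖r + p‖ + ‖r - p‖ := by
  have h := norm_sub_le (r + p) (r - p)
  have e : r + p - (r - p) = (2 : ℝ) • p := by rw [two_smul]; abel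
  rw [e, norm_smul] at h
  norm_num at h
  linarith

/-- The sign of a Boolean. -/
def sg (b : Bool) : ℝ := if b then 1 else -1

@[simp] lemma sg_true : sg true = 1 := rfl
@[simp] lemma sg_false : sg false = -1 := rfl
lemma sg_sq (b : Bool) : sg b * sg b = 1 := by cases b <;> simp
lemma abs_sg (b : Bool) : |sg b| = 1 := by cases b <;> simp
lemma sg_xor (a b : Bool) : sg (xor a b) = -(sg a * sg b) := by cases a <;> cases b <;> simp
lemma sg_not (a : Bool) : sg (!a) = -sg a := by cases a <;> simp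

variable {ι : Type*} [Fintype ι] [DecidableEq ι]

/-- Flipping the signs in a set. -/
def flip (T : Finset ι) : (ι → Bool) ≃ (ι → Bool) where
  toFun ε := fun l => if l ∈ T then !(ε l) else ε l
  invFun ε := fun l => if l ∈ T then !(ε l) else ε l
  left_inv ε := by
    funext l
    by_cases h : l ∈ T <;> simp [h]
  right_inv ε := by
    funext l
    by_cases h : l ∈ T <;> simp [h]

lemma sum_flip (b : ι → F) (T : Finset ι) (ε : ι → Bool) :
    ∑ l, sg (flip T ε l) • b l = ∑ l, sg (ε l) • b l - (2 : ℝ) • ∑ l ∈ T, sg (ε l) • b l := by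
  have h : ∀ l, sg (flip T ε l) • b l =
      sg (ε l) • b l - (2 : ℝ) • (if l ∈ T then sg (ε l) • b l else 0) := by
    intro l
    by_cases hl : l ∈ T
    · have : flip T ε l = !(ε l) := by simp [flip, hl]
      rw [this, sg_not, if_pos hl, neg_smul, two_smul]
      abel
    · have : flip T ε l = ε l := by simp [flip, hl]
      rw [this, if_neg hl, smul_zero, sub_zero]
  rw [Finset.sum_congr rfl fun l _ => h l, Finset.sum_sub_distrib, ← Finset.smul_sum,
    Finset.sum_ite_mem, Finset.univ_inter]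

lemma triple_bound (b : ι → F) {i j k : ι} (hij : i ≠ j) (hik : i ≠ k) (hjk : j ≠ k) :
    (2 : ℝ) ^ Fintype.card ι * (‖b i‖ + ‖b j‖ + ‖b k‖) ≤
      2 * ∑ ε : ι → Bool, ‖∑ l, sg (ε l) • b l‖ := by
  have hS : ∀ T : Finset ι, ∑ ε : ι → Bool, ‖∑ l, sg (ε l) • b l - (2 : ℝ) • ∑ l ∈ T, sg (ε l) • b l‖ =
      ∑ ε : ι → Bool, ‖∑ l, sg (ε l) • b l‖ := by
    intro T
    rw [← Equiv.sum_comp (flip T) (fun ε => ‖∑ l, sg (ε l) • b l‖)]
    exact Finset.sum_congr rfl fun ε _ => by rw [sum_flip]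
  have hpt : ∀ ε : ι → Bool, 4 * (‖b i‖ + ‖b j‖ + ‖b k‖) ≤
      ‖∑ l, sg (ε l) • b l - (2 : ℝ) • ∑ l ∈ (∅ : Finset ι), sg (ε l) • b l‖ +
      ‖∑ l, sg (ε l) • b l - (2 : ℝ) • ∑ l ∈ ({i, j, k} : Finset ι), sg (ε l) • b l‖ +
      (‖∑ l, sg (ε l) • b l - (2 : ℝ) • ∑ l ∈ ({i} : Finset ι), sg (ε l) • b l‖ +
      ‖∑ l, sg (ε l) • b l - (2 : ℝ) • ∑ l ∈ ({j, k} : Finset ι), sg (ε l) • b l‖) +
      (‖∑ l, sg (ε l) • b l - (2 : ℝ) • ∑ l ∈ ({j} : Finset ι), sg (ε l) • b l‖ +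
      ‖∑ l, sg (ε l) • b l - (2 : ℝ) • ∑ l ∈ ({i, k} : Finset ι), sg (ε l) • b l‖) +
      (‖∑ l, sg (ε l) • b l - (2 : ℝ) • ∑ l ∈ ({k} : Finset ι), sg (ε l) • b l‖ +
      ‖∑ l, sg (ε l) • b l - (2 : ℝ) • ∑ l ∈ ({i, j} : Finset ι), sg (ε l) • b l‖) := by
    intro ε
    set S := ∑ l, sg (ε l) • b l with hSd
    set x := sg (ε i) • b i with hx
    set y := sg (ε j) • b j with hy
    set z := sg (ε k) • b k with hz
    have nx : ‖x‖ = ‖b i‖ := by rw [hx, norm_smul, Real.norm_eq_abs, abs_sg, one_mul]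
    have ny : ‖y‖ = ‖b j‖ := by rw [hy, norm_smul, Real.norm_eq_abs, abs_sg, one_mul]
    have nz : ‖z‖ = ‖b k‖ := by rw [hz, norm_smul, Real.norm_eq_abs, abs_sg, one_mul]
    have s3 : ∑ l ∈ ({i, j, k} : Finset ι), sg (ε l) • b l = x + (y + z) := by
      rw [Finset.sum_insert (by simp [hij, hik]), Finset.sum_pair hjk]
    rw [s3, Finset.sum_pair hjk, Finset.sum_pair hik, Finset.sum_pair hij, Finset.sum_singleton,
      Finset.sum_singleton, Finset.sum_singleton, Finset.sum_empty, ← hx, ← hy, ← hz, ← nx, ← ny, ← nz]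
    have h4 := four_signs x y z
    set r := S - (x + y + z) with hr
    have a1 := two_norm_le (x + y + z) r
    have a2 := two_norm_le (-x + y + z) r
    have a3 := two_norm_le (x - y + z) r
    have a4 := two_norm_le (x + y - z) r
    have b1 : S - (2 : ℝ) • (0 : F) = r + (x + y + z) := by rw [hr, smul_zero]; abel
    have b2 : S - (2 : ℝ) • (x + (y + z)) = r - (x + y + z) := by rw [hr, two_smul]; abel
    have b3 : S - (2 : ℝ) • x = r + (-x + y + z) := by rw [hr, two_smul]; abel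
    have b4 : S - (2 : ℝ) • (y + z) = r - (-x + y + z) := by rw [hr, two_smul]; abel
    have b5 : S - (2 : ℝ) • y = r + (x - y + z) := by rw [hr, two_smul]; abel
    have b6 : S - (2 : ℝ) • (x + z) = r - (x - y + z) := by rw [hr, two_smul]; abel
    have b7 : S - (2 : ℝ) • z = r + (x + y - z) := by rw [hr, two_smul]; abel
    have b8 : S - (2 : ℝ) • (x + y) = r - (x + y - z) := by rw [hr, two_smul]; abel
    rw [b1, b2, b3, b4, b5, b6, b7, b8]
    linarith
  have hsum := Finset.sum_le_sum fun ε (_ : ε ∈ (Finset.univ : Finset (ι → Bool))) => hpt ε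
  simp only [Finset.sum_add_distrib, hS] at hsum
  rw [Finset.sum_const, Finset.card_univ, Fintype.card_fun, Fintype.card_bool, nsmul_eq_mul] at hsum
  push_cast at hsum
  nlinarith [hsum]

/-- The mean norm of the signed sums of `n ≥ 3` vectors is at least `3 / (2 n)` times the sum of
their norms. -/
theorem sign_sum_bound (k : ℕ) (b : Fin (k + 3) → F) :
    (2 : ℝ) ^ (k + 3) * (3 / (2 * (k + 3))) * ∑ i, ‖b i‖ ≤
      ∑ ε : Fin (k + 3) → Bool, ‖∑ l, sg (ε l) • b l‖ := by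
  have h1 : (1 : Fin (k + 3)) ≠ 0 := by simp
  have h2 : (2 : Fin (k + 3)) ≠ 0 := by
    intro h
    have := congrArg Fin.val h
    simp at this
    rw [Nat.mod_eq_of_lt (by omega)] at this
    omega
  have h21 : (2 : Fin (k + 3)) ≠ 1 := by
    intro h
    have := congrArg Fin.val h
    simp at this
    rw [Nat.mod_eq_of_lt (by omega)] at this
    omega
  have h := Finset.sum_le_sum fun i (_ : i ∈ (Finset.univ : Finset (Fin (k + 3)))) =>
    triple_bound b (i := i) (j := i + 1) (k := i + 2) (by simp) (by simpa using h2)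
      (by simpa using h21.symm)
  have e1 : ∑ i : Fin (k + 3), ‖b (i + 1)‖ = ∑ i, ‖b i‖ :=
    Equiv.sum_comp (Equiv.addRight (1 : Fin (k + 3))) (fun i => ‖b i‖)
  have e2 : ∑ i : Fin (k + 3), ‖b (i + 2)‖ = ∑ i, ‖b i‖ :=
    Equiv.sum_comp (Equiv.addRight (2 : Fin (k + 3))) (fun i => ‖b i‖)
  rw [← Finset.mul_sum, Finset.sum_add_distrib, Finset.sum_add_distrib, e1, e2, Finset.sum_const,
    Finset.card_univ, Fintype.card_fin, nsmul_eq_mul] at h
  push_cast at h
  set S := ∑ ε : Fin (k + 3) → Bool, ‖∑ l, sg (ε l) • b l‖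
  set N := ∑ i, ‖b i‖
  have hk : (0 : ℝ) < k + 3 := by positivity
  rw [show (2 : ℝ) ^ (k + 3) * (3 / (2 * (k + 3))) * N = ((2 : ℝ) ^ (k + 3) * (N + N + N)) / (2 * (k + 3)) by
    field_simp; ring, div_le_iff₀ (by positivity)]
  linarith

end Pool.Agent.Run7.h379.AS
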