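import Pool.Agent.Run7.h379.AS.Bodies

/-! # The comparison of the volumes -/

namespace Pool.Agent.Run7.h379.AS

open MeasureTheory Measure Module Set
open scoped ENNReal

variable {n : ℕ}

/-- The truncated cross-polytope in coordinates. -/
def Tr (n : ℕ) (s t : ℝ) : Set (Fin n → ℝ) := {y | ∑ j, |y j| ≤ s ∧ ∀ j, |y j| ≤ s - t}

/-- The caps. -/
def cap (n : ℕ) (s t : ℝ) (i : Fin n) (b : Bool) : Set (Fin n → ℝ) :=
  {y | ∑ j, |y j| ≤ s ∧ s - t < sg b * y i}

lemma measurableSet_cap (s t : ℝ) (i : Fin n) (b : Bool) : MeasurableSet (cap n s t i b) := by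
  have h : IsOpen {y : Fin n → ℝ | s - t < sg b * y i} := isOpen_lt continuous_const (by fun_prop)
  exact (isClosed_Om s).measurableSet.inter h.measurableSet

lemma volume_cap {s t : ℝ} (hts : t ≤ s) (i : Fin n) (b : Bool) :
    volume (cap n s t i b) ≤ volume (cap n t t i b) := by
  have hsub : cap n s t i b ⊆
      (fun y => y + (Pi.single i (-(sg b * (s - t))) : Fin n → ℝ)) ⁻¹' cap n t t i b := by
    intro y hy
    obtain ⟨h1, h2⟩ := hy
    have hyi : sg b * y i = |y i| := by
      have : 0 < sg b * y i := by linarith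
      rw [← abs_of_pos this, abs_mul, abs_sg, one_mul]
    have hz : ∀ j, (y + (Pi.single i (-(sg b * (s - t))) : Fin n → ℝ)) j =
        y j + (if j = i then -(sg b * (s - t)) else 0) := by
      intro j
      rw [Pi.add_apply, Pi.single_apply]
    have h3 : sg b * (y i + -(sg b * (s - t))) = |y i| - (s - t) := by
      rw [mul_add, hyi, mul_neg, ← mul_assoc, sg_sq, one_mul]
      ring
    refine ⟨?_, ?_⟩
    · have h4 : ∀ j, |(y + (Pi.single i (-(sg b * (s - t))) : Fin n → ℝ)) j| =
          |y j| + (if j = i then -(s - t) else 0) := by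
        intro j
        rw [hz]
        by_cases hj : j = i
        · subst hj
          rw [if_pos rfl, if_pos rfl]
          have h5 : |y j + -(sg b * (s - t))| = |sg b * (y j + -(sg b * (s - t)))| := by
            rw [abs_mul, abs_sg, one_mul]
          rw [h5, h3, abs_of_nonneg (by linarith)]
          ring
        · rw [if_neg hj, if_neg hj, add_zero, add_zero]
      rw [Finset.sum_congr rfl fun j _ => h4 j, Finset.sum_add_distrib, Finset.sum_ite_eq',
        if_pos (Finset.mem_univ i)]
      linarith
    · show t - t < sg b * (y + (Pi.single i (-(sg b * (s - t))) : Fin n → ℝ)) i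
      rw [hz, if_pos rfl, h3]
      linarith
  refine (measure_mono hsub).trans (le_of_eq ?_)
  rw [measure_preimage_add_right]

lemma volume_caps {s t : ℝ} (hts : t ≤ s) (i : Fin n) :
    volume (cap n s t i true) + volume (cap n s t i false) ≤ volume (Om n t) := by
  refine (add_le_add (volume_cap hts i true) (volume_cap hts i false)).trans ?_
  rw [← measure_union ?_ (measurableSet_cap t t i false)]
  · refine measure_mono ?_
    rintro y (hy | hy)
    · exact hy.1
    · exact hy.1
  · rw [Set.disjoint_left]
    intro y hy hy'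
    have h1 := hy.2
    have h2 := hy'.2
    simp only [sg_true, sg_false] at h1 h2
    linarith

lemma volume_Tr {s t : ℝ} (hts : t ≤ s) :
    volume (Om n s) ≤ volume (Tr n s t) + n * volume (Om n t) := by
  have hsub : Om n s ⊆ Tr n s t ∪ ⋃ i, (cap n s t i true ∪ cap n s t i false) := by
    intro y hy
    by_cases h : ∀ j, |y j| ≤ s - t
    · exact Or.inl ⟨hy, h⟩
    · right
      push Not at h
      obtain ⟨i, hi⟩ := h
      refine mem_iUnion.2 ⟨i, ?_⟩
      rcases abs_choice (y i) with h' | h'
      · left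
        exact ⟨hy, by rw [sg_true, one_mul, ← h']; exact hi⟩
      · right
        exact ⟨hy, by rw [sg_false, neg_one_mul, ← h']; exact hi⟩
  refine (measure_mono hsub).trans ((measure_union_le _ _).trans (add_le_add le_rfl ?_))
  refine (measure_iUnion_fintype_le _ _).trans ?_
  refine (Finset.sum_le_sum fun i _ => (measure_union_le _ _).trans (volume_caps hts i)).trans ?_
  rw [Finset.sum_const, Finset.card_univ, Fintype.card_fin, nsmul_eq_mul]

lemma volume_Om_eq {r : ℝ} (hr : 0 < r) :
    volume (Om n r) = ENNReal.ofReal (r ^ n) * volume (Om n 1) := by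
  rw [Om_eq hr, volume_smul_set, abs_of_pos hr]

lemma volume_Om_pos : 0 < volume (Om n 1) := by
  have h : {y : Fin n → ℝ | ∑ j, |y j| < 1} ⊆ Om n 1 := by
    intro y hy
    have : ∑ j, |y j| < 1 := hy
    exact this.le
  refine lt_of_lt_of_le ?_ (measure_mono h)
  refine IsOpen.measure_pos _ (isOpen_lt (by fun_prop) continuous_const) ⟨0, ?_⟩
  simp

lemma volume_Om_lt_top : volume (Om n 1) < ⊤ := by
  have h : Om n 1 ⊆ Metric.closedBall 0 1 := by
    intro y hy
    rw [mem_closedBall_zero_iff, pi_norm_le_iff_of_nonneg zero_le_one]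
    intro j
    have h1 : ∑ j, |y j| ≤ 1 := hy
    exact (Finset.single_le_sum (f := fun k => |y k|) (fun k _ => abs_nonneg _)
      (Finset.mem_univ j)).trans h1
  exact (measure_mono h).trans_lt (isCompact_closedBall 0 1).measure_lt_top

lemma volume_Tr_gt {s t : ℝ} (ht : 0 < t) (hs : 0 < s) (hts : t ≤ s)
    (hst : 1 + n * t ^ n < s ^ n) : volume (Om n 1) < volume (Tr n s t) := by
  by_contra hcon
  push Not at hcon
  have h1 := volume_Tr (n := n) hts
  rw [volume_Om_eq hs, volume_Om_eq ht] at h1
  have h2 : ENNReal.ofReal (s ^ n) * volume (Om n 1) ≤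
      ENNReal.ofReal (1 + n * t ^ n) * volume (Om n 1) := by
    refine h1.trans ((add_le_add hcon le_rfl).trans (le_of_eq ?_))
    rw [ENNReal.ofReal_add zero_le_one (by positivity), ENNReal.ofReal_one,
      ENNReal.ofReal_mul (by positivity), ENNReal.ofReal_natCast, add_mul, one_mul, mul_assoc]
  rw [ENNReal.mul_le_mul_iff_left volume_Om_pos.ne' volume_Om_lt_top.ne,
    ENNReal.ofReal_le_ofReal_iff (by positivity)] at h2
  linarith

lemma volume_cross {m : ℕ} (s : ℝ) : volume (cross m s) = volume (Om (m + 1) s) :=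
  (PiLp.volume_preserving_ofLp (Fin (m + 1))).measure_preimage
    (isClosed_Om s).measurableSet.nullMeasurableSet

lemma isClosed_Tr (s t : ℝ) : IsClosed (Tr n s t) := by
  have : Tr n s t = Om n s ∩ ⋂ i, {x : Fin n → ℝ | |x i| ≤ s - t} := by
    ext x; simp [Tr, Om]
  rw [this]
  exact (isClosed_Om s).inter
    (isClosed_iInter fun i => isClosed_le (by fun_prop) continuous_const)

lemma volume_trunc {m : ℕ} (s t : ℝ) : volume (trunc m s t) = volume (Tr (m + 1) s t) :=
  (PiLp.volume_preserving_ofLp (Fin (m + 1))).measure_preimage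
    (isClosed_Tr s t).measurableSet.nullMeasurableSet

end Pool.Agent.Run7.h379.AS
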