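import Pool.Agent.Run7.h379.AS.Area
import Pool.Agent.Run7.h379.AS.VolMain

/-! # The counterexample in every dimension at least three -/

namespace Pool.Agent.Run7.h379.AS

open MeasureTheory Measure Module Set
open scoped ENNReal

lemma affine_area {n : ℕ} (A : E n ≃ᵃ[ℝ] E n) (C : Set (E n)) (d : ℕ) :
    μHE[d] (frontier (A '' C)) = μHE[d] (A.linear '' frontier C) := by
  have h1 : frontier (A '' C) = A '' frontier C :=
    (A.toHomeomorphOfFiniteDimensional.image_frontier C).symm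
  have h2 : A '' frontier C = (fun y => y + A 0) '' (A.linear '' frontier C) := by
    rw [← image_comp]
    refine image_congr fun x _ => ?_
    have h3 := A.map_vadd 0 x
    rw [vadd_eq_add, vadd_eq_add, add_zero] at h3
    exact h3
  rw [h1, h2]
  exact (isometry_add_right _).euclideanHausdorffMeasure_image _

/-- The scale of the truncated cross-polytope. -/
noncomputable def scale (k : ℕ) : ℝ :=
  (1 + ((k + 3) / 3) * (1 / 4 : ℝ) ^ (k + 2)) ^ (((k + 2 : ℕ) : ℝ)⁻¹)

lemma scale_pow (k : ℕ) : scale k ^ (k + 2) = 1 + ((k + 3) / 3) * (1 / 4 : ℝ) ^ (k + 2) :=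
  Real.rpow_inv_natCast_pow (by positivity) (by omega)

lemma one_le_scale (k : ℕ) : 1 ≤ scale k := by
  refine Real.one_le_rpow ?_ (by positivity)
  have : (0 : ℝ) ≤ ((k + 3) / 3) * (1 / 4 : ℝ) ^ (k + 2) := by positivity
  linarith

theorem main (k : ℕ) :
    ∃ C₁ C₂ : Set (E (k + 3)),
      (IsCompact C₁ ∧ Convex ℝ C₁ ∧ (interior C₁).Nonempty ∧ ∀ x ∈ C₁, -x ∈ C₁) ∧
      (IsCompact C₂ ∧ Convex ℝ C₂ ∧ (interior C₂).Nonempty ∧ ∀ x ∈ C₂, -x ∈ C₂) ∧
      (∀ A : E (k + 3) ≃ᵃ[ℝ] E (k + 3),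
        μHE[k + 3 - 1] (frontier (A '' C₁)) ≤ μHE[k + 3 - 1] (frontier (A '' C₂)) ∧
        μHE[k + 3 - 1] (frontier (A '' C₂)) < ⊤) ∧
      volume C₂ < volume C₁ := by
  have hs1 := one_le_scale k
  have hsp := scale_pow k
  refine ⟨trunc (k + 2) (scale k) (1 / 4), cross (k + 2) 1,
    ⟨isCompact_trunc _ _, convex_trunc _ _, interior_trunc (by norm_num) (by linarith),
      fun x hx => neg_trunc _ _ hx⟩,
    ⟨isCompact_cross _, convex_cross _, interior_cross one_pos, fun x hx => neg_cross _ hx⟩,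
    fun A => ⟨?_, ?_⟩, ?_⟩
  · rw [affine_area, affine_area]
    exact area_le hsp hs1 A.linear
  · rw [affine_area]
    exact area_cross_lt_top A.linear (by omega)
  · rw [volume_cross, volume_trunc]
    refine volume_Tr_gt (by norm_num) (by linarith) (by linarith) ?_
    have hT : (0 : ℝ) < (1 / 4) ^ (k + 2) := by positivity
    have h1 : scale k ^ (k + 2) ≤ scale k ^ (k + 2 + 1) := pow_le_pow_right₀ hs1 (by omega)
    refine lt_of_lt_of_le ?_ h1
    rw [hsp, pow_succ (1 / 4 : ℝ) (k + 2)]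
    push_cast
    have h2 : (0 : ℝ) < (k + 3) * (1 / 4) ^ (k + 2) := by positivity
    nlinarith [h2]

end Pool.Agent.Run7.h379.AS
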