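import Mathlib

/-! # Areas of linear images of sets in a hyperplane

`prism_area`: if `P` lies in the hyperplane `⟪v, x⟫ = c` of Euclidean `n`-space, then the area of its
image under an invertible linear map `A` is the volume of the prism `P + [0, 1) w`, divided by
`|⟪v, w⟫|` and multiplied by `|det A| * ‖u‖`, where `u` is the image of `v` under the inverse of the
adjoint of `A`. -/

namespace Pool.Agent.Run7.h379.AS

open MeasureTheory Measure Module Set
open scoped RealInnerProductSpace ENNReal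

/-- Euclidean space. -/
abbrev E (n : ℕ) := EuclideanSpace ℝ (Fin n)

/-- The prism over `P` (in the hyperplane `⟪v, x⟫ = c`) in the direction `w`. -/
def prism {n : ℕ} (v w : E n) (c : ℝ) (P : Set (E n)) : Set (E n) :=
  {x | (⟪v, x⟫ - c) / ⟪v, w⟫ ∈ Ico (0 : ℝ) 1 ∧ x - ((⟪v, x⟫ - c) / ⟪v, w⟫) • w ∈ P}

lemma measurableSet_prism {n : ℕ} (v w : E n) (c : ℝ) {P : Set (E n)} (hP : MeasurableSet P) :
    MeasurableSet (prism v w c P) := by
  have h1 : Continuous fun x : E n => (⟪v, x⟫ - c) / ⟪v, w⟫ := by fun_prop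
  have h2 : Continuous fun x : E n => x - ((⟪v, x⟫ - c) / ⟪v, w⟫) • w := by fun_prop
  exact (measurableSet_Ico.preimage h1.measurable).inter (hP.preimage h2.measurable)

/-- The measure of the set of the parameters of the slices. -/
lemma volume_param {a b : ℝ} (ha : a ≠ 0) :
    volume {t : ℝ | a * t + b ∈ Ico (0 : ℝ) 1} = ENNReal.ofReal (|a|⁻¹) := by
  have : {t : ℝ | a * t + b ∈ Ico (0 : ℝ) 1} = (fun t => a * t) ⁻¹' ((fun t => t + b) ⁻¹' Ico 0 1) := rfl
  rw [this, Real.volume_preimage_mul_left ha, measure_preimage_add_right, Real.volume_Ico]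
  simp [abs_inv]

theorem prism_area {n : ℕ} (A : E n ≃ₗ[ℝ] E n) (v w u : E n) (c : ℝ) (hvw : ⟪v, w⟫ ≠ 0)
    (hu : ∀ x, ⟪u, A x⟫ = ⟪v, x⟫) {P : Set (E n)} (hP : MeasurableSet P)
    (hPc : ∀ x ∈ P, ⟪v, x⟫ = c) :
    μHE[n - 1] (A '' P) =
      ENNReal.ofReal (|LinearMap.det (A : E n →ₗ[ℝ] E n)| * ‖u‖ * |⟪v, w⟫|⁻¹) *
        volume (prism v w c P) := by
  have hfr : finrank ℝ (E n) = n := by simp
  have hu0 : u ≠ 0 := by
    rintro rfl
    apply hvw
    rw [← hu w]
    simp
  have hun : 0 < ‖u‖ := norm_pos_iff.2 hu0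
  set κ := ⟪v, w⟫ with hκ
  set t : Set (E n) := A '' prism v w c P with ht
  have hAc : Continuous A := A.toContinuousLinearEquiv.continuous
  have hmeas : MeasurableEmbedding A := A.toContinuousLinearEquiv.toHomeomorph.measurableEmbedding
  have htm : MeasurableSet t := hmeas.measurableSet_image.2 (measurableSet_prism v w c hP)
  have key := EuclideanGeometry.euclideanHausdorffMeasure_eq_lintegral (P := E n) (0 : E n) hu0 htm
  rw [InnerProductSpace.euclideanHausdorffMeasure_eq_volume, hfr] at key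
  -- the slices
  have hsl : ∀ x : ℝ, μHE[n - 1] (t ∩ AffineSubspace.mk' (x • u +ᵥ (0 : E n)) (ℝ ∙ u)ᗮ) =
      ({x : ℝ | (‖u‖ ^ 2 / κ) * x + (-c / κ) ∈ Ico (0 : ℝ) 1}).indicator
        (fun _ => μHE[n - 1] (A '' P)) x := by
    intro x
    have hmem : ∀ y : E n, y ∈ AffineSubspace.mk' (x • u +ᵥ (0 : E n)) (ℝ ∙ u)ᗮ ↔
        ⟪u, y⟫ = x * ‖u‖ ^ 2 := by
      intro y
      rw [AffineSubspace.mem_mk', vsub_eq_sub, Submodule.mem_orthogonal_singleton_iff_inner_right,
        inner_sub_right, vadd_eq_add, add_zero, inner_smul_right, real_inner_self_eq_norm_sq]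
      constructor
      · intro h; linarith
      · intro h; linarith
    have hρ : (‖u‖ ^ 2 / κ) * x + (-c / κ) = (x * ‖u‖ ^ 2 - c) / κ := by ring
    by_cases hx : (‖u‖ ^ 2 / κ) * x + (-c / κ) ∈ Ico (0 : ℝ) 1
    · rw [indicator_of_mem (by exact hx)]
      rw [hρ] at hx
      set ρ := (x * ‖u‖ ^ 2 - c) / κ with hρd
      have heq : t ∩ (AffineSubspace.mk' (x • u +ᵥ (0 : E n)) (ℝ ∙ u)ᗮ : Set (E n)) =
          (fun y => y + ρ • A w) '' (A '' P) := by
        ext y
        constructor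
        · rintro ⟨⟨z, hz, rfl⟩, hy⟩
          have h1 : ⟪u, A z⟫ = x * ‖u‖ ^ 2 := (hmem _).1 hy
          rw [hu] at h1
          refine ⟨A (z - ρ • w), ⟨_, ?_, rfl⟩, ?_⟩
          · have := hz.2
            rw [h1] at this
            exact this
          · simp
        · rintro ⟨_, ⟨z, hz, rfl⟩, rfl⟩
          have h2 : ⟪v, z + ρ • w⟫ = x * ‖u‖ ^ 2 := by
            rw [inner_add_right, inner_smul_right, hPc z hz, ← hκ, hρd]
            field_simp
            ring
          refine ⟨⟨z + ρ • w, ⟨?_, ?_⟩, by simp⟩, ?_⟩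
          · rw [h2]; exact hx
          · rw [h2, ← hκ, ← hρd]
            simpa using hz
          · refine (hmem _).2 ?_
            have : A z + ρ • A w = A (z + ρ • w) := by simp
            change ⟪u, A z + ρ • A w⟫ = _
            rw [this, hu, h2]
      rw [heq]
      exact (isometry_add_right _).euclideanHausdorffMeasure_image _
    · rw [indicator_of_notMem (by exact hx)]
      rw [hρ] at hx
      convert measure_empty (μ := (μHE[n - 1] : Measure (E n)))
      rw [eq_empty_iff_forall_notMem]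
      rintro y ⟨⟨z, hz, rfl⟩, hy⟩
      have h1 : ⟪u, A z⟫ = x * ‖u‖ ^ 2 := (hmem _).1 hy
      rw [hu] at h1
      apply hx
      have := hz.1
      rw [h1] at this
      exact this
  rw [lintegral_congr hsl, lintegral_indicator (by
    apply MeasurableSet.preimage measurableSet_Ico
    fun_prop), lintegral_const, Measure.restrict_apply MeasurableSet.univ, univ_inter,
    volume_param (by positivity)] at key
  have hdet : volume (A '' prism v w c P) =
      ENNReal.ofReal |LinearMap.det (A : E n →ₗ[ℝ] E n)| * volume (prism v w c P) :=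
    addHaar_image_linearMap volume (A : E n →ₗ[ℝ] E n) _
  rw [ht, hdet] at key
  have hκ0 : 0 < |κ| := abs_pos.2 hvw
  have he : ‖u‖ₑ = ENNReal.ofReal ‖u‖ := (ofReal_norm u).symm
  have h3 : ENNReal.ofReal (‖u‖ * |κ|⁻¹) * (ENNReal.ofReal ‖u‖ * ENNReal.ofReal |‖u‖ ^ 2 / κ|⁻¹) = 1 := by
    rw [← ENNReal.ofReal_mul (by positivity), ← ENNReal.ofReal_mul (by positivity), ← ENNReal.ofReal_one]
    congr 1
    rw [abs_div, abs_of_pos (show (0 : ℝ) < ‖u‖ ^ 2 by positivity)]
    field_simp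
  calc μHE[n - 1] (A '' P)
      = (ENNReal.ofReal (‖u‖ * |κ|⁻¹) * (ENNReal.ofReal ‖u‖ * ENNReal.ofReal |‖u‖ ^ 2 / κ|⁻¹)) *
          μHE[n - 1] (A '' P) := by rw [h3, one_mul]
    _ = ENNReal.ofReal (‖u‖ * |κ|⁻¹) * (‖u‖ₑ * (μHE[n - 1] (A '' P) *
          ENNReal.ofReal |‖u‖ ^ 2 / κ|⁻¹)) := by rw [he]; ring
    _ = ENNReal.ofReal (‖u‖ * |κ|⁻¹) * (ENNReal.ofReal |LinearMap.det (A : E n →ₗ[ℝ] E n)| *
          volume (prism v w c P)) := by rw [← key]
    _ = _ := by
      rw [← mul_assoc, ← ENNReal.ofReal_mul (by positivity)]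
      congr 2
      ring

end Pool.Agent.Run7.h379.AS
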